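import Mathlib
import Pool.Agent.J4H46.EL.Final

/-!
# Infinitely many elementary components of the Hilbert schemes of points of affine 3-space

For every field `K` (algebraically closed in the question) and every `R` there is an `r > R` such that the Hilbert
scheme of `r` points of affine 3-space over `K` has an elementary irreducible component.

`HilbertScheme K B r` (starting files, `Pool.Agent.Helper226.LociDefs`): a `K`-scheme `H` with bijections `Φ R`, natural in the
`K`-algebra `R`, between the `R`-valued points of `H` and the families over `Spec R` of closed subschemes of length `r` of
`Spec B` (ideals of `R ⊗ B` with finite projective quotient of rank `r`). It exists and is unique up to a unique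
isomorphism.

`IsElementary 𝓗 C`: for every algebraically closed field `Ω` over `K` and every `Ω`-valued point of the Hilbert scheme
whose image is in `C`, the corresponding subscheme of `𝔸³_Ω` is supported at one point (its coordinate ring, the quotient of
`Ω ⊗ K[x, y, z]`, is a local ring). For `Ω = K` algebraically closed these are the closed points of `C`.

Proof. Let `δ(x)` be the transcendence degree of the residue field of a point `x`, the dimension of its closure. Suppose
that for all `r > R` no component of `Hilb_r` is elementary. Then `δ(x) ≤ C r` for all the points `x` of `Hilb_r`, with
`C = 3 R + 1`: for `r ≤ R` because `δ(x) ≤ 3 r² + r` (the matrices of the multiplications by the variables and the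
coordinates of `1`); for `r > R` one may take `x` to be the generic point of a component `Z`; a geometric point of `Z` is not
supported at one point, hence the same is true for the geometric generic point (to be supported at one point is a closed
condition); it is the disjoint union of subschemes of lengths `a` and `b`, `a + b = r`, and is defined over the
compositum of their fields of definition, so that `δ(x) ≤ C a + C b` by induction. But the ideals between
`m ^ s` and `m ^ (s + 1)` of colength `r = binom (s + 2) 3 + e` contain a Grassmannian of dimension
`e (binom (s + 2) 2 - e)`, which is larger than `C r` for suitable `s` and `e`.
-/

set_option autoImplicit false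

open AlgebraicGeometry

universe u

namespace Pool.Agent.Results.MP_5ec99c_ag.InfinitelyManyElementary

open Pool.Agent.Helper226 Pool.Agent.J4H46.EL

theorem result (K : Type u) [Field K] :
    (∀ r : ℕ, Nonempty (HilbertScheme K (MvPolynomial (Fin 3) K) r)) ∧
    ∀ R : ℕ, ∃ r : ℕ, R < r ∧ ∀ 𝓗 : HilbertScheme K (MvPolynomial (Fin 3) K) r,
      ∃ C ∈ irreducibleComponents 𝓗.H, IsElementary 𝓗 C :=
  final K

end Pool.Agent.Results.MP_5ec99c_ag.InfinitelyManyElementary
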